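import Mathlib

/-!
Project SS (helper250), task SS-KN: volumes and the choice of the radius.
-/

set_option autoImplicit false

namespace Pool.Agent.Y25.SS

open MeasureTheory Set Filter Topology
open scoped ENNReal NNReal

/-- area of a closed disc -/
lemma vol_disc_le (b : ℝ) (hb : 0 ≤ b) :
    volume {z : ℝ × ℝ | z.1 ^ 2 + z.2 ^ 2 ≤ b} = ENNReal.ofReal (Real.pi * b) := by
  have hmp := Complex.volume_preserving_equiv_real_prod
  have hms : MeasurableSet {z : ℝ × ℝ | z.1 ^ 2 + z.2 ^ 2 ≤ b} :=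
    measurableSet_le (by fun_prop) measurable_const
  rw [← hmp.measure_preimage hms.nullMeasurableSet]
  have h1 : Complex.measurableEquivRealProd ⁻¹' {z : ℝ × ℝ | z.1 ^ 2 + z.2 ^ 2 ≤ b} =
      Metric.closedBall (0 : ℂ) (Real.sqrt b) := by
    ext z
    rw [mem_closedBall_zero_iff, mem_preimage, mem_ofPred_eq,
      Real.le_sqrt (norm_nonneg _) hb, Complex.sq_norm, Complex.normSq_apply]
    simp only [Complex.measurableEquivRealProd_apply]
    rw [pow_two, pow_two]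
  rw [h1, Complex.volume_closedBall, ← ENNReal.ofReal_pow (Real.sqrt_nonneg _), Real.sq_sqrt hb,
    mul_comm, ENNReal.ofReal_mul Real.pi_pos.le]
  congr 1
  rw [← NNReal.coe_real_pi, ENNReal.ofReal_coe_nnreal]

/-- area of an open disc -/
lemma vol_disc_lt (a : ℝ) (ha : 0 ≤ a) :
    volume {z : ℝ × ℝ | z.1 ^ 2 + z.2 ^ 2 < a} = ENNReal.ofReal (Real.pi * a) := by
  have hmp := Complex.volume_preserving_equiv_real_prod
  have hms : MeasurableSet {z : ℝ × ℝ | z.1 ^ 2 + z.2 ^ 2 < a} :=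
    measurableSet_lt (by fun_prop) measurable_const
  rw [← hmp.measure_preimage hms.nullMeasurableSet]
  have h1 : Complex.measurableEquivRealProd ⁻¹' {z : ℝ × ℝ | z.1 ^ 2 + z.2 ^ 2 < a} =
      Metric.ball (0 : ℂ) (Real.sqrt a) := by
    ext z
    rw [mem_ball_zero_iff, mem_preimage, mem_ofPred_eq,
      Real.lt_sqrt (norm_nonneg _), Complex.sq_norm, Complex.normSq_apply]
    simp only [Complex.measurableEquivRealProd_apply]
    rw [pow_two, pow_two]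
  rw [h1, Complex.volume_ball, ← ENNReal.ofReal_pow (Real.sqrt_nonneg _), Real.sq_sqrt ha,
    mul_comm, ENNReal.ofReal_mul Real.pi_pos.le]
  congr 1
  rw [← NNReal.coe_real_pi, ENNReal.ofReal_coe_nnreal]

/-- area of an annulus -/
lemma vol_ann (a b : ℝ) (ha : 0 ≤ a) (hab : a ≤ b) :
    volume {z : ℝ × ℝ | a ≤ z.1 ^ 2 + z.2 ^ 2 ∧ z.1 ^ 2 + z.2 ^ 2 ≤ b} =
      ENNReal.ofReal (Real.pi * (b - a)) := by
  have h1 : {z : ℝ × ℝ | a ≤ z.1 ^ 2 + z.2 ^ 2 ∧ z.1 ^ 2 + z.2 ^ 2 ≤ b} =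
      {z : ℝ × ℝ | z.1 ^ 2 + z.2 ^ 2 ≤ b} \ {z : ℝ × ℝ | z.1 ^ 2 + z.2 ^ 2 < a} := by
    ext z
    simp only [mem_ofPred_eq, Set.mem_sdiff, not_lt]
    exact and_comm
  have hms : MeasurableSet {z : ℝ × ℝ | z.1 ^ 2 + z.2 ^ 2 < a} :=
    measurableSet_lt (by fun_prop) measurable_const
  have hsub : {z : ℝ × ℝ | z.1 ^ 2 + z.2 ^ 2 < a} ⊆ {z : ℝ × ℝ | z.1 ^ 2 + z.2 ^ 2 ≤ b} :=
    fun z hz => (le_of_lt hz).trans hab
  rw [h1, measure_sdiff hsub hms.nullMeasurableSet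
    (by rw [vol_disc_lt a ha]; exact ENNReal.ofReal_ne_top), vol_disc_le b (ha.trans hab),
    vol_disc_lt a ha, ← ENNReal.ofReal_sub _ (by positivity)]
  congr 1
  ring

/-- a box -/
def box (a b c : ℝ) : Set (EuclideanSpace ℝ (Fin 3)) := {x | |x 0| ≤ a ∧ |x 1| ≤ b ∧ |x 2| ≤ c}

lemma box_eq (a b c : ℝ) : box a b c =
    (WithLp.ofLp : EuclideanSpace ℝ (Fin 3) → Fin 3 → ℝ) ⁻¹' Icc ![-a, -b, -c] ![a, b, c] := by
  ext x
  rw [mem_preimage, mem_Icc, Pi.le_def, Pi.le_def]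
  unfold box
  simp only [mem_ofPred_eq, Fin.forall_fin_succ, Matrix.cons_val_zero, Matrix.cons_val_succ,
    abs_le]
  constructor
  · rintro ⟨h1, h2, h3⟩
    refine ⟨⟨h1.1, h2.1, h3.1, fun i => i.elim0⟩, ⟨h1.2, h2.2, h3.2, fun i => i.elim0⟩⟩
  · rintro ⟨⟨h1, h2, h3, _⟩, ⟨h1', h2', h3', _⟩⟩
    exact ⟨⟨h1, h1'⟩, ⟨h2, h2'⟩, ⟨h3, h3'⟩⟩

lemma box_meas (a b c : ℝ) : MeasurableSet (box a b c) := by
  rw [box_eq]
  exact (PiLp.volume_preserving_ofLp (Fin 3)).measurable measurableSet_Icc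

/-- volume of a box -/
lemma vol_box (a b c : ℝ) (ha : 0 ≤ a) (hb : 0 ≤ b) (hc : 0 ≤ c) :
    volume (box a b c) = ENNReal.ofReal (8 * a * b * c) := by
  rw [box_eq, (PiLp.volume_preserving_ofLp (Fin 3)).measure_preimage
    measurableSet_Icc.nullMeasurableSet, Real.volume_Icc_pi, Fin.prod_univ_three]
  simp only [Matrix.cons_val_zero, Matrix.cons_val_one, Matrix.cons_val_two, Matrix.head_cons,
    Matrix.tail_cons]
  have h1 : ∀ t : ℝ, t - -t = 2 * t := fun t => by ring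
  rw [h1, h1, h1, ← ENNReal.ofReal_mul (by positivity), ← ENNReal.ofReal_mul (by positivity)]
  congr 1
  ring

/-- a double integral -/
lemma double {α : Type*} [MeasurableSpace α] (μ : Measure α) [SFinite μ] (Kr : α → α → ℝ≥0∞)
    (ind : α → ℝ≥0∞) (hK : Measurable (Function.uncurry Kr)) (hi : Measurable ind) (a b : ℝ≥0∞)
    (hK1 : ∀ x, ∫⁻ y, Kr x y ∂μ ≤ a) (hK2 : ∀ y, ∫⁻ x, Kr x y ∂μ ≤ a)
    (hib : ∫⁻ x, ind x ∂μ ≤ b) :
    ∫⁻ x, ∫⁻ y, (Kr x y * ind y + Kr x y * ind x) ∂μ ∂μ ≤ a * b + a * b := by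
  have hKi : Measurable (fun p : α × α => Kr p.1 p.2 * ind p.2) :=
    hK.mul (hi.comp measurable_snd)
  have hKi1 : Measurable fun x => ∫⁻ y, Kr x y * ind y ∂μ :=
    Measurable.lintegral_prod_right' (f := fun p : α × α => Kr p.1 p.2 * ind p.2) hKi
  have hKx : ∀ x, Measurable fun y => Kr x y := fun x => hK.comp measurable_prodMk_left
  have hKy : ∀ y, Measurable fun x => Kr x y := fun y => hK.comp measurable_prodMk_right
  have h1 : ∀ x, ∫⁻ y, (Kr x y * ind y + Kr x y * ind x) ∂μ =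
      ∫⁻ y, Kr x y * ind y ∂μ + (∫⁻ y, Kr x y ∂μ) * ind x := by
    intro x
    have hKxi : Measurable fun y => Kr x y * ind y := (hKx x).mul hi
    rw [lintegral_add_left hKxi, lintegral_mul_const _ (hKx x)]
  simp only [h1]
  rw [lintegral_add_left hKi1]
  refine add_le_add ?_ ?_
  · rw [lintegral_lintegral_swap (f := fun x y => Kr x y * ind y) hKi.aemeasurable]
    calc ∫⁻ y, (∫⁻ x, Kr x y * ind y ∂μ) ∂μ
        = ∫⁻ y, (∫⁻ x, Kr x y ∂μ) * ind y ∂μ :=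
          lintegral_congr fun y => lintegral_mul_const _ (hKy y)
      _ ≤ ∫⁻ y, a * ind y ∂μ := lintegral_mono fun y => mul_le_mul' (hK2 y) le_rfl
      _ = a * ∫⁻ y, ind y ∂μ := lintegral_const_mul _ hi
      _ ≤ a * b := mul_le_mul' le_rfl hib
  · calc ∫⁻ x, (∫⁻ y, Kr x y ∂μ) * ind x ∂μ
        ≤ ∫⁻ y, a * ind y ∂μ := lintegral_mono fun y => mul_le_mul' (hK1 y) le_rfl
      _ = a * ∫⁻ y, ind y ∂μ := lintegral_const_mul _ hi
      _ ≤ a * b := mul_le_mul' le_rfl hib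

/-- the choice of the radius -/
lemma exists_rho (θ D c₀ : ℝ) (hθ : 0 < θ) (hc : 0 < c₀) :
    ∃ ρ : ℝ, 0 < ρ ∧ ρ ≤ 1 / 10 ∧ D * ρ ^ θ < c₀ := by
  have h1 : Tendsto (fun ρ : ℝ => D * ρ ^ θ) (𝓝[>] 0) (𝓝 (D * 0)) := by
    apply Tendsto.const_mul
    have h2 := (Real.continuousAt_rpow_const 0 θ (Or.inr hθ.le)).tendsto
    rw [Real.zero_rpow hθ.ne'] at h2
    exact h2.mono_left nhdsWithin_le_nhds
  rw [mul_zero] at h1
  have h3 := h1.eventually (gt_mem_nhds hc)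
  obtain ⟨ρ, h4, h5⟩ := (h3.and (Ioo_mem_nhdsGT (show (0 : ℝ) < 1 / 10 by norm_num))).exists
  exact ⟨ρ, h5.1, h5.2.le, h4⟩

end Pool.Agent.Y25.SS
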