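import Pool.Agent.Y250.SS.Stm2
import Pool.Agent.Y664.SS.BT
import Pool.Agent.Y25.SS.KnA

/-!
Project SS (helper250), task SS-KN: caps and annuli on the sphere.
-/

set_option autoImplicit false

namespace Pool.Agent.Y25.SS

open MeasureTheory Set Complex Filter Topology
open scoped ENNReal NNReal RealInnerProductSpace
open Pool.Agent.Y250.SS
open Pool.Agent.Helper793.Nir (E3 S2 sig S2_norm)
open Pool.Agent.Y664.SS (hh_sq hh_nonneg hh_ge hh_le so_sub S1_meas S1_lt mem_S1 vol_ball ca)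

lemma S2_sq (x : S2) : (x : E3) 0 ^ 2 + (x : E3) 1 ^ 2 + (x : E3) 2 ^ 2 = 1 := by
  have h9 := EuclideanSpace.norm_sq_eq (x : E3)
  rw [S2_norm x, Fin.sum_univ_three] at h9
  simp only [Real.norm_eq_abs, sq_abs] at h9
  linarith

lemma height (x : S2) : (x : E3) 2 + 1 = ‖(x : E3) - so‖ ^ 2 / 2 := by
  have h1 := so_sub (x : E3)
  have h2 := S2_sq x
  nlinarith

lemma Lo_sq {z : ℝ × ℝ} (hz : z.1 ^ 2 + z.2 ^ 2 ≤ 1) : ‖Lo z - so‖ ^ 2 = 2 - 2 * hh z := by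
  rw [so_sub]
  show z.1 ^ 2 + z.2 ^ 2 + (-hh z + 1) ^ 2 = _
  have := hh_sq hz
  nlinarith

lemma near (hXF : S_XF) (x : S2) (h : ‖(x : E3) - so‖ ≤ 2 / 5) :
    (x : E3) 2 < 0 ∧ ((x : E3) 0, (x : E3) 1) ∈ S 1 := by
  have h1 := height x
  have h2 : ‖(x : E3) - so‖ ^ 2 ≤ (2 / 5) ^ 2 := pow_le_pow_left₀ (norm_nonneg _) h 2
  have h3 := so_sub (x : E3)
  refine ⟨by nlinarith, mem_S1 hXF ?_⟩
  show (x : E3) 0 ^ 2 + (x : E3) 1 ^ 2 < 1 / 6
  nlinarith [sq_nonneg ((x : E3) 2 + 1)]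

lemma sig_set (hSG : S_SG) {E : Set E3} (hE : MeasurableSet E)
    (hsub : ∀ x : S2, (x : E3) ∈ E → (x : E3) 2 < 0 ∧ ((x : E3) 0, (x : E3) 1) ∈ S 1) :
    sig {x : S2 | (x : E3) ∈ E} =
      ∫⁻ z in S 1, ENNReal.ofReal (1 / hh z) * E.indicator (fun _ => (1 : ℝ≥0∞)) (Lo z) := by
  have hE' : MeasurableSet {x : S2 | (x : E3) ∈ E} := measurable_subtype_coe hE
  rw [← hSG 1 _ le_rfl (measurable_const.indicator hE)]
  have h5 : ∀ y : S2, E.indicator (fun _ => (1 : ℝ≥0∞)) (y : E3) =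
      ({x : S2 | (x : E3) ∈ E}).indicator (fun _ => (1 : ℝ≥0∞)) y := fun y => rfl
  simp only [h5]
  have hsub' : {x : S2 | (x : E3) ∈ E} ⊆
      {x : S2 | (x : E3) 2 < 0 ∧ ((x : E3) 0, (x : E3) 1) ∈ S 1} := fun x hx => hsub x hx
  rw [lintegral_indicator hE', Measure.restrict_restrict hE', lintegral_const, one_mul,
    Measure.restrict_apply MeasurableSet.univ, univ_inter, inter_eq_self_of_subset_left hsub']

/-- the cap as a set of the space -/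
def capE (r : ℝ) : Set E3 := {v | ‖v - so‖ ≤ r}

lemma capE_meas (r : ℝ) : MeasurableSet (capE r) :=
  measurableSet_le (by fun_prop) measurable_const

/-- the annulus as a set of the space -/
def annE (r0 r1 : ℝ) : Set E3 := {v | r0 ≤ ‖v - so‖ ∧ ‖v - so‖ ≤ r1}

lemma annE_meas (r0 r1 : ℝ) : MeasurableSet (annE r0 r1) := by
  have h : annE r0 r1 = {v | r0 ≤ ‖v - so‖} ∩ {v | ‖v - so‖ ≤ r1} := rfl
  have hm : Measurable fun v : E3 => ‖v - so‖ := by fun_prop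
  rw [h]
  exact (measurableSet_le measurable_const hm).inter (measurableSet_le hm measurable_const)

/-- lower bound for the area of a cap -/
lemma cap_ge (hSG : S_SG) (hXF : S_XF) {ρ : ℝ} (h0 : 0 < ρ) (h1 : ρ ≤ 2 / 5) :
    ENNReal.ofReal (ρ ^ 2) ≤ sig {x : S2 | (x : E3) ∈ capE ρ} := by
  rw [sig_set hSG (capE_meas ρ) (fun x hx => near hXF x (le_trans hx h1))]
  have h2 : volume {z : ℝ × ℝ | ‖z‖ ≤ ρ / 2} = ENNReal.ofReal (4 * (ρ / 2) ^ 2) :=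
    vol_ball (by positivity)
  have hsq : ∀ z ∈ {z : ℝ × ℝ | ‖z‖ ≤ ρ / 2}, z.1 ^ 2 + z.2 ^ 2 ≤ ρ ^ 2 / 2 := by
    intro z hz
    have h3 : |z.1| ≤ ρ / 2 := (norm_fst_le z).trans hz
    have h4 : |z.2| ≤ ρ / 2 := (norm_snd_le z).trans hz
    have h5 : z.1 ^ 2 ≤ (ρ / 2) ^ 2 := sq_le_sq' (abs_le.1 h3).1 (abs_le.1 h3).2
    have h6 : z.2 ^ 2 ≤ (ρ / 2) ^ 2 := sq_le_sq' (abs_le.1 h4).1 (abs_le.1 h4).2
    nlinarith
  have hB : {z : ℝ × ℝ | ‖z‖ ≤ ρ / 2} ⊆ S 1 := by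
    intro z hz
    refine mem_S1 hXF ?_
    have := hsq z hz
    nlinarith
  have hms : MeasurableSet {z : ℝ × ℝ | ‖z‖ ≤ ρ / 2} :=
    measurableSet_le (by fun_prop) measurable_const
  calc ENNReal.ofReal (ρ ^ 2) = ∫⁻ _z in {z : ℝ × ℝ | ‖z‖ ≤ ρ / 2}, (1 : ℝ≥0∞) := by
        rw [setLIntegral_one, h2]
        congr 1
        ring
    _ ≤ ∫⁻ z in {z : ℝ × ℝ | ‖z‖ ≤ ρ / 2},
          ENNReal.ofReal (1 / hh z) * (capE ρ).indicator (fun _ => (1 : ℝ≥0∞)) (Lo z) := by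
        refine setLIntegral_mono' hms fun z hz => ?_
        have h3 := hsq z hz
        have h4 : z.1 ^ 2 + z.2 ^ 2 ≤ 1 := by nlinarith
        have h5 := hh_sq h4
        have h6 := hh_le z
        have h7 : 1 / 2 ≤ hh z := hh_ge (by nlinarith)
        have h8 : Lo z ∈ capE ρ := by
          have h9 := Lo_sq h4
          show ‖Lo z - so‖ ≤ ρ
          have h10 : ‖Lo z - so‖ ^ 2 ≤ ρ ^ 2 := by nlinarith
          exact le_of_sq_le_sq h10 h0.le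
        rw [indicator_of_mem h8, mul_one, ← ENNReal.ofReal_one]
        apply ENNReal.ofReal_le_ofReal
        rw [le_div_iff₀ (by linarith)]
        linarith
    _ ≤ _ := lintegral_mono_set hB

/-- upper bound for the area of an annulus -/
lemma ann_le (hSG : S_SG) (hXF : S_XF) {r0 r1 : ℝ} (h0 : 0 ≤ r0) (h01 : r0 ≤ r1)
    (h1 : r1 ≤ 2 / 5) :
    sig {x : S2 | (x : E3) ∈ annE r0 r1} ≤ ENNReal.ofReal (2 * Real.pi * (r1 ^ 2 - r0 ^ 2)) := by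
  rw [sig_set hSG (annE_meas r0 r1) (fun x hx => near hXF x (le_trans hx.2 h1))]
  set a : ℝ := r0 ^ 2 - r0 ^ 4 / 4 with ha
  set b : ℝ := r1 ^ 2 - r1 ^ 4 / 4 with hb
  have hr0 : r0 ^ 2 ≤ 1 / 4 := by nlinarith
  have hr1 : r1 ^ 2 ≤ 1 / 4 := by nlinarith
  have hr01 : r0 ^ 2 ≤ r1 ^ 2 := pow_le_pow_left₀ h0 h01 2
  have ha0 : 0 ≤ a := by
    have : r0 ^ 4 = r0 ^ 2 * r0 ^ 2 := by ring
    rw [ha, this]
    nlinarith [sq_nonneg r0]
  have hmono : ∀ u v : ℝ, 0 ≤ u → u ≤ v → v ≤ 1 / 4 → u - u ^ 2 / 4 ≤ v - v ^ 2 / 4 := by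
    intro u v hu huv hv
    nlinarith [mul_nonneg (sub_nonneg.2 huv) (by linarith : (0 : ℝ) ≤ 1 - (u + v) / 4)]
  have hab : a ≤ b := by
    have := hmono (r0 ^ 2) (r1 ^ 2) (sq_nonneg _) hr01 hr1
    rw [ha, hb]
    nlinarith
  have hba : b - a ≤ r1 ^ 2 - r0 ^ 2 := by
    have : r0 ^ 4 ≤ r1 ^ 4 := pow_le_pow_left₀ h0 h01 4
    rw [ha, hb]
    linarith
  have hms : MeasurableSet {z : ℝ × ℝ | a ≤ z.1 ^ 2 + z.2 ^ 2 ∧ z.1 ^ 2 + z.2 ^ 2 ≤ b} := by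
    have hm : Measurable fun z : ℝ × ℝ => z.1 ^ 2 + z.2 ^ 2 := by fun_prop
    have h : {z : ℝ × ℝ | a ≤ z.1 ^ 2 + z.2 ^ 2 ∧ z.1 ^ 2 + z.2 ^ 2 ≤ b} =
        {z : ℝ × ℝ | a ≤ z.1 ^ 2 + z.2 ^ 2} ∩ {z : ℝ × ℝ | z.1 ^ 2 + z.2 ^ 2 ≤ b} := rfl
    rw [h]
    exact (measurableSet_le measurable_const hm).inter (measurableSet_le hm measurable_const)
  have hpt : ∀ z ∈ S 1, ENNReal.ofReal (1 / hh z) *
      (annE r0 r1).indicator (fun _ => (1 : ℝ≥0∞)) (Lo z) ≤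
      {z : ℝ × ℝ | a ≤ z.1 ^ 2 + z.2 ^ 2 ∧ z.1 ^ 2 + z.2 ^ 2 ≤ b}.indicator
        (fun _ => (2 : ℝ≥0∞)) z := by
    intro z hz
    by_cases hzE : Lo z ∈ annE r0 r1
    · have h2 := S1_lt hXF hz
      have h3 : z.1 ^ 2 + z.2 ^ 2 ≤ 1 := by linarith
      have h4 := Lo_sq h3
      have h5 := hh_sq h3
      have h6 := hh_ge h2
      obtain ⟨h7, h8⟩ := hzE
      have h9 : r0 ^ 2 ≤ ‖Lo z - so‖ ^ 2 := pow_le_pow_left₀ h0 h7 2
      have h10 : ‖Lo z - so‖ ^ 2 ≤ r1 ^ 2 := pow_le_pow_left₀ (norm_nonneg _) h8 2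
      have h11 : z.1 ^ 2 + z.2 ^ 2 = ‖Lo z - so‖ ^ 2 - (‖Lo z - so‖ ^ 2) ^ 2 / 4 := by
        rw [h4]
        nlinarith
      have h12 := hmono _ _ (sq_nonneg r0) h9 (h10.trans hr1)
      have h13 := hmono _ _ (sq_nonneg _) h10 hr1
      have hmem : z ∈ {z : ℝ × ℝ | a ≤ z.1 ^ 2 + z.2 ^ 2 ∧ z.1 ^ 2 + z.2 ^ 2 ≤ b} := by
        constructor
        · rw [h11, ha]
          nlinarith
        · rw [h11, hb]
          nlinarith
      rw [indicator_of_mem (show Lo z ∈ annE r0 r1 from ⟨h7, h8⟩), mul_one,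
        indicator_of_mem hmem, ← ENNReal.ofReal_ofNat]
      refine ENNReal.ofReal_le_ofReal ?_
      rw [div_le_iff₀ (by linarith)]
      linarith
    · rw [indicator_of_notMem hzE, mul_zero]
      exact zero_le
  refine (setLIntegral_mono' (S1_meas hXF) hpt).trans ?_
  refine (setLIntegral_le_lintegral _ _).trans ?_
  rw [lintegral_indicator hms, lintegral_const, Measure.restrict_apply MeasurableSet.univ,
    univ_inter, vol_ann a b ha0 hab, ← ENNReal.ofReal_ofNat, ← ENNReal.ofReal_mul (by norm_num)]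
  refine ENNReal.ofReal_le_ofReal ?_
  have := Real.pi_pos
  nlinarith

/-! ### the Besov class of the cap -/

/-- the density -/
noncomputable def gc (ρ : ℝ) : S2 → ℂ :=
  {x : S2 | (x : E3) ∈ capE ρ}.indicator fun _ => 1

lemma cap_meas (ρ : ℝ) : MeasurableSet {x : S2 | (x : E3) ∈ capE ρ} :=
  measurable_subtype_coe (capE_meas ρ)

lemma gc_meas (ρ : ℝ) : Measurable (gc ρ) := measurable_const.indicator (cap_meas ρ)

lemma gc_diff (ρ : ℝ) (x y : S2) : ‖gc ρ y - gc ρ x‖ₑ ^ 2 ≤ 1 := by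
  unfold gc
  by_cases h1 : y ∈ {x : S2 | (x : E3) ∈ capE ρ} <;> by_cases h2 : x ∈ {x : S2 | (x : E3) ∈ capE ρ}
  · rw [indicator_of_mem h1, indicator_of_mem h2]; simp
  · rw [indicator_of_mem h1, indicator_of_notMem h2]; simp
  · rw [indicator_of_notMem h1, indicator_of_mem h2]; simp
  · rw [indicator_of_notMem h1, indicator_of_notMem h2]; simp

lemma gc_diff' (ρ : ℝ) (x y : S2) : ‖gc ρ y - gc ρ x‖ₑ ^ 2 ≤
    {x : S2 | (x : E3) ∈ capE ρ}.indicator (fun _ => (1 : ℝ≥0∞)) y +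
      {x : S2 | (x : E3) ∈ capE ρ}.indicator (fun _ => (1 : ℝ≥0∞)) x := by
  unfold gc
  by_cases h1 : y ∈ {x : S2 | (x : E3) ∈ capE ρ} <;> by_cases h2 : x ∈ {x : S2 | (x : E3) ∈ capE ρ}
  · rw [indicator_of_mem h1, indicator_of_mem h2, indicator_of_mem h1, indicator_of_mem h2]; simp
  · rw [indicator_of_mem h1, indicator_of_notMem h2, indicator_of_mem h1,
      indicator_of_notMem h2]; simp
  · rw [indicator_of_notMem h1, indicator_of_mem h2, indicator_of_notMem h1,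
      indicator_of_mem h2]; simp
  · rw [indicator_of_notMem h1, indicator_of_notMem h2, indicator_of_notMem h1,
      indicator_of_notMem h2]; simp

/-- the kernel -/
noncomputable def Kr (δ : ℝ) (x y : S2) : ℝ≥0∞ :=
  {p : S2 × S2 | ‖(p.2 : E3) - (p.1 : E3)‖ ≤ δ}.indicator (fun _ => (1 : ℝ≥0∞)) (x, y)

/-- the indicator of the cap -/
noncomputable def ind (ρ : ℝ) : S2 → ℝ≥0∞ :=
  {x : S2 | (x : E3) ∈ capE ρ}.indicator (fun _ => (1 : ℝ≥0∞))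

lemma Kr_of {δ : ℝ} {x y : S2} (h : ‖(y : E3) - (x : E3)‖ ≤ δ) : Kr δ x y = 1 :=
  indicator_of_mem (show (x, y) ∈ {p : S2 × S2 | ‖(p.2 : E3) - (p.1 : E3)‖ ≤ δ} from h) _

lemma Kr_not {δ : ℝ} {x y : S2} (h : ¬ ‖(y : E3) - (x : E3)‖ ≤ δ) : Kr δ x y = 0 :=
  indicator_of_notMem (show (x, y) ∉ {p : S2 × S2 | ‖(p.2 : E3) - (p.1 : E3)‖ ≤ δ} from h) _

lemma Kr_meas (δ : ℝ) : Measurable (Function.uncurry (Kr δ)) := by
  have hPm : MeasurableSet {p : S2 × S2 | ‖(p.2 : E3) - (p.1 : E3)‖ ≤ δ} :=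
    measurableSet_le (by fun_prop) measurable_const
  have h : Function.uncurry (Kr δ) = {p : S2 × S2 | ‖(p.2 : E3) - (p.1 : E3)‖ ≤ δ}.indicator
      (fun _ => (1 : ℝ≥0∞)) := rfl
  rw [h]
  exact measurable_const.indicator hPm

lemma ball_meas (δ : ℝ) (x : S2) : MeasurableSet {y : S2 | ‖(y : E3) - (x : E3)‖ ≤ δ} :=
  measurableSet_le (by fun_prop) measurable_const

lemma Kr_eq (δ : ℝ) (x y : S2) : Kr δ x y = {y : S2 | ‖(y : E3) - (x : E3)‖ ≤ δ}.indicator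
    (fun _ => (1 : ℝ≥0∞)) y := by
  by_cases h : ‖(y : E3) - (x : E3)‖ ≤ δ
  · rw [Kr_of h, indicator_of_mem (show y ∈ {y : S2 | ‖(y : E3) - (x : E3)‖ ≤ δ} from h)]
  · rw [Kr_not h, indicator_of_notMem (show y ∉ {y : S2 | ‖(y : E3) - (x : E3)‖ ≤ δ} from h)]

lemma Kr_symm (δ : ℝ) (x y : S2) : Kr δ x y = Kr δ y x := by
  by_cases h : ‖(y : E3) - (x : E3)‖ ≤ δ
  · rw [Kr_of h, Kr_of (by rw [norm_sub_rev]; exact h)]
  · rw [Kr_not h, Kr_not (by rw [norm_sub_rev]; exact h)]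

lemma Kr_int (hSG : S_SG) (hXF : S_XF) {δ : ℝ} (hδ : 0 < δ) (x : S2) :
    ∫⁻ y, Kr δ x y ∂sig ≤ ENNReal.ofReal (100 * δ ^ 2) := by
  rw [lintegral_congr fun y => Kr_eq δ x y, lintegral_indicator (ball_meas δ x), setLIntegral_one]
  exact ca hSG hXF x δ hδ

lemma so_norm : ‖so‖ = 1 := by
  have h2 := so_sub 0
  rw [zero_sub, norm_neg] at h2
  have h3 : ‖so‖ ^ 2 = 1 := by
    rw [h2]
    show (0 : ℝ) ^ 2 + 0 ^ 2 + (0 + 1) ^ 2 = 1
    norm_num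
  nlinarith [norm_nonneg so]

lemma ind_meas (ρ : ℝ) : Measurable (ind ρ) := measurable_const.indicator (cap_meas ρ)

lemma ind_int (hSG : S_SG) (hXF : S_XF) {ρ : ℝ} (h0 : 0 < ρ) :
    ∫⁻ x, ind ρ x ∂sig ≤ ENNReal.ofReal (100 * ρ ^ 2) := by
  unfold ind
  rw [lintegral_indicator (cap_meas ρ), setLIntegral_one]
  exact ca hSG hXF (⟨so, by rw [mem_sphere_zero_iff_norm]; exact so_norm⟩ : S2) ρ h0

/-- the double integral for large increments -/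
lemma bes1 (hSG : S_SG) (hXF : S_XF) {ρ δ : ℝ} (h0 : 0 < ρ) (hδ : 0 < δ) :
    ∫⁻ x, (∫⁻ y in {y : S2 | ‖(y : E3) - (x : E3)‖ ≤ δ}, ‖gc ρ y - gc ρ x‖ₑ ^ 2 ∂sig) ∂sig ≤
      ENNReal.ofReal (20000 * ρ ^ 2 * δ ^ 2) := by
  have h1 := double sig (Kr δ) (ind ρ) (Kr_meas δ) (ind_meas ρ) (ENNReal.ofReal (100 * δ ^ 2))
    (ENNReal.ofReal (100 * ρ ^ 2)) (Kr_int hSG hXF hδ)
    (fun y => by
      rw [lintegral_congr fun x => Kr_symm δ x y]
      exact Kr_int hSG hXF hδ y)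
    (ind_int hSG hXF h0)
  have h2 : ENNReal.ofReal (100 * δ ^ 2) * ENNReal.ofReal (100 * ρ ^ 2) +
      ENNReal.ofReal (100 * δ ^ 2) * ENNReal.ofReal (100 * ρ ^ 2) =
      ENNReal.ofReal (20000 * ρ ^ 2 * δ ^ 2) := by
    rw [← ENNReal.ofReal_mul (by positivity), ← ENNReal.ofReal_add (by positivity) (by positivity)]
    congr 1
    ring
  rw [h2] at h1
  refine le_trans ?_ h1
  refine lintegral_mono fun x => ?_
  rw [← lintegral_indicator (ball_meas δ x)]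
  refine lintegral_mono fun y => ?_
  by_cases h : ‖(y : E3) - (x : E3)‖ ≤ δ
  · rw [indicator_of_mem (show y ∈ {y : S2 | ‖(y : E3) - (x : E3)‖ ≤ δ} from h), Kr_of h, one_mul,
      one_mul]
    exact gc_diff' ρ x y
  · rw [indicator_of_notMem (show y ∉ {y : S2 | ‖(y : E3) - (x : E3)‖ ≤ δ} from h)]
    exact zero_le

/-- the double integral for small increments -/
lemma bes2 (hSG : S_SG) (hXF : S_XF) {ρ δ : ℝ} (h1 : ρ ≤ 1 / 10) (hδ : 0 < δ)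
    (hδρ : δ ≤ ρ) :
    ∫⁻ x, (∫⁻ y in {y : S2 | ‖(y : E3) - (x : E3)‖ ≤ δ}, ‖gc ρ y - gc ρ x‖ₑ ^ 2 ∂sig) ∂sig ≤
      ENNReal.ofReal (3200 * ρ * δ ^ 3) := by
  have hca := ca hSG hXF
  have hAm : MeasurableSet {x : S2 | (x : E3) ∈ annE (ρ - δ) (ρ + δ)} :=
    measurable_subtype_coe (annE_meas _ _)
  have hann := ann_le hSG hXF (r0 := ρ - δ) (r1 := ρ + δ) (by linarith) (by linarith) (by linarith)
  have hpt : ∀ x : S2, ∫⁻ y in {y : S2 | ‖(y : E3) - (x : E3)‖ ≤ δ},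
      ‖gc ρ y - gc ρ x‖ₑ ^ 2 ∂sig ≤
      {x : S2 | (x : E3) ∈ annE (ρ - δ) (ρ + δ)}.indicator
        (fun _ => ENNReal.ofReal (100 * δ ^ 2)) x := by
    intro x
    have hBm : MeasurableSet {y : S2 | ‖(y : E3) - (x : E3)‖ ≤ δ} :=
      measurableSet_le (by fun_prop) measurable_const
    by_cases hx : x ∈ {x : S2 | (x : E3) ∈ annE (ρ - δ) (ρ + δ)}
    · rw [indicator_of_mem hx]
      calc ∫⁻ y in {y : S2 | ‖(y : E3) - (x : E3)‖ ≤ δ}, ‖gc ρ y - gc ρ x‖ₑ ^ 2 ∂sig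
          ≤ ∫⁻ _y in {y : S2 | ‖(y : E3) - (x : E3)‖ ≤ δ}, (1 : ℝ≥0∞) ∂sig :=
            lintegral_mono fun y => gc_diff ρ x y
        _ = sig {y : S2 | ‖(y : E3) - (x : E3)‖ ≤ δ} := setLIntegral_one _
        _ ≤ _ := hca x δ hδ
    · rw [indicator_of_notMem hx]
      have hz : ∀ y ∈ {y : S2 | ‖(y : E3) - (x : E3)‖ ≤ δ}, ‖gc ρ y - gc ρ x‖ₑ ^ 2 ≤ 0 := by
        intro y hy
        have hy' : ‖(y : E3) - (x : E3)‖ ≤ δ := hy
        have t1 : ‖(y : E3) - so‖ ≤ ‖(y : E3) - (x : E3)‖ + ‖(x : E3) - so‖ := by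
          have := norm_add_le ((y : E3) - (x : E3)) ((x : E3) - so)
          rwa [sub_add_sub_cancel] at this
        have t2 : ‖(x : E3) - so‖ ≤ ‖(y : E3) - (x : E3)‖ + ‖(y : E3) - so‖ := by
          have := norm_add_le ((x : E3) - (y : E3)) ((y : E3) - so)
          rwa [sub_add_sub_cancel, norm_sub_rev (x : E3) (y : E3)] at this
        have hx' : ‖(x : E3) - so‖ < ρ - δ ∨ ρ + δ < ‖(x : E3) - so‖ := by
          by_contra hcon
          push Not at hcon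
          exact hx ⟨hcon.1, hcon.2⟩
        unfold gc
        rcases hx' with h | h
        · rw [indicator_of_mem (show y ∈ {x : S2 | (x : E3) ∈ capE ρ} from
              (show ‖(y : E3) - so‖ ≤ ρ by linarith)),
            indicator_of_mem (show x ∈ {x : S2 | (x : E3) ∈ capE ρ} from
              (show ‖(x : E3) - so‖ ≤ ρ by linarith))]
          simp
        · rw [indicator_of_notMem (show y ∉ {x : S2 | (x : E3) ∈ capE ρ} from
              (show ¬ ‖(y : E3) - so‖ ≤ ρ by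
                push Not
                linarith)),
            indicator_of_notMem (show x ∉ {x : S2 | (x : E3) ∈ capE ρ} from
              (show ¬ ‖(x : E3) - so‖ ≤ ρ by
                push Not
                linarith))]
          simp
      calc ∫⁻ y in {y : S2 | ‖(y : E3) - (x : E3)‖ ≤ δ}, ‖gc ρ y - gc ρ x‖ₑ ^ 2 ∂sig
          ≤ ∫⁻ _y in {y : S2 | ‖(y : E3) - (x : E3)‖ ≤ δ}, (0 : ℝ≥0∞) ∂sig :=
            setLIntegral_mono' hBm hz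
        _ = 0 := lintegral_zero
        _ ≤ 0 := le_rfl
  calc ∫⁻ x, (∫⁻ y in {y : S2 | ‖(y : E3) - (x : E3)‖ ≤ δ}, ‖gc ρ y - gc ρ x‖ₑ ^ 2 ∂sig) ∂sig
      ≤ ∫⁻ x, {x : S2 | (x : E3) ∈ annE (ρ - δ) (ρ + δ)}.indicator
        (fun _ => ENNReal.ofReal (100 * δ ^ 2)) x ∂sig := lintegral_mono hpt
    _ = ENNReal.ofReal (100 * δ ^ 2) * sig {x : S2 | (x : E3) ∈ annE (ρ - δ) (ρ + δ)} := by
        rw [lintegral_indicator hAm, setLIntegral_const]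
    _ ≤ ENNReal.ofReal (100 * δ ^ 2) *
        ENNReal.ofReal (2 * Real.pi * ((ρ + δ) ^ 2 - (ρ - δ) ^ 2)) := mul_le_mul' le_rfl hann
    _ ≤ _ := by
        rw [← ENNReal.ofReal_mul (by positivity)]
        apply ENNReal.ofReal_le_ofReal
        have h2 : 100 * δ ^ 2 * (2 * Real.pi * ((ρ + δ) ^ 2 - (ρ - δ) ^ 2)) =
            Real.pi * (800 * ρ * δ ^ 3) := by ring
        rw [h2]
        have h3 := Real.pi_le_four
        have h4 : 0 ≤ 800 * ρ * δ ^ 3 := by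
          have : 0 < ρ := lt_of_lt_of_le hδ hδρ
          positivity
        nlinarith

end Pool.Agent.Y25.SS
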