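import Pool.Agent.Y250.SS.Stm3
import Pool.Agent.Y25.SS.KnB

/-!
Project SS (helper250), task SS-KN: optimality of the regularity (Knapp's example).
-/

set_option autoImplicit false

namespace Pool.Agent.Y25.SS

open MeasureTheory Set Complex Filter Topology
open scoped ENNReal NNReal RealInnerProductSpace
open Pool.Agent.Y250.SS
open Pool.Agent.Helper793.Nir (E3 S2 sig S2_norm)
open Pool.Agent.Y664.SS (so_sub)

lemma rp (ρ a b : ℝ) (h : 0 < ρ) : ρ ^ (a + b) = ρ ^ a * ρ ^ b := Real.rpow_add h a b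

/-- the Besov class of the cap -/
lemma gc_bes (hSG : S_SG) (hXF : S_XF) {ρ s : ℝ} (h0 : 0 < ρ) (h1 : ρ ≤ 1 / 10) (hs : 0 < s)
    (hs1 : s < 1 / 2) : BesS s (Real.toNNReal (300 * ρ ^ (1 - s))) (gc ρ) := by
  have hK : ((Real.toNNReal (300 * ρ ^ (1 - s)) : ℝ≥0) : ℝ≥0∞) ^ 2 =
      ENNReal.ofReal (90000 * ρ ^ (2 - 2 * s)) := by
    rw [show ((Real.toNNReal (300 * ρ ^ (1 - s)) : ℝ≥0) : ℝ≥0∞) =
      ENNReal.ofReal (300 * ρ ^ (1 - s)) from rfl, ← ENNReal.ofReal_pow (by positivity)]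
    congr 1
    have e : (ρ ^ (1 - s)) ^ 2 = ρ ^ (2 - 2 * s) := by
      rw [← Real.rpow_natCast, ← Real.rpow_mul h0.le]
      congr 1
      push_cast
      ring
    rw [mul_pow, e]
    norm_num
  have hρ1 : ρ ≤ 1 := by linarith
  refine ⟨gc_meas ρ, ?_, ?_⟩
  · rw [hK]
    have h2 : ∀ x, ‖gc ρ x‖ₑ ^ 2 = ind ρ x := by
      intro x
      unfold gc ind
      by_cases h : x ∈ {x : S2 | (x : E3) ∈ capE ρ}
      · rw [indicator_of_mem h, indicator_of_mem h]; simp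
      · rw [indicator_of_notMem h, indicator_of_notMem h]; simp
    rw [lintegral_congr h2]
    refine (ind_int hSG hXF h0).trans (ENNReal.ofReal_le_ofReal ?_)
    have h3 : ρ ^ 2 ≤ ρ ^ (2 - 2 * s) := by
      rw [← Real.rpow_natCast]
      exact Real.rpow_le_rpow_of_exponent_ge h0 hρ1 (by push_cast; linarith)
    nlinarith [sq_nonneg ρ]
  · intro δ hδ hδ1
    rw [hK, ← ENNReal.ofReal_mul (by positivity)]
    have hδ3 : δ ^ (2 + 2 * s) = δ ^ 2 * δ ^ (2 * s) := by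
      rw [rp _ _ _ hδ]
      congr 1
      exact_mod_cast Real.rpow_natCast δ 2
    have hρ3 : ρ ^ (2 - 2 * s) * ρ ^ (2 * s) = ρ ^ 2 := by
      rw [← rp _ _ _ h0, sub_add_cancel]
      exact_mod_cast Real.rpow_natCast ρ 2
    have hρp : 0 < ρ ^ (2 - 2 * s) := Real.rpow_pos_of_pos h0 _
    have hδp : 0 < δ ^ (2 * s) := Real.rpow_pos_of_pos hδ _
    by_cases hc : δ ≤ ρ
    · refine (bes2 hSG hXF h1 hδ hc).trans (ENNReal.ofReal_le_ofReal ?_)
      -- ρ δ ≤ ρ^(2-2s) δ^(2s)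
      have h4 : δ = δ ^ (1 - 2 * s) * δ ^ (2 * s) := by
        rw [← rp _ _ _ hδ, sub_add_cancel, Real.rpow_one]
      have h5 : δ ^ (1 - 2 * s) ≤ ρ ^ (1 - 2 * s) := Real.rpow_le_rpow hδ.le hc (by linarith)
      have h6 : ρ * ρ ^ (1 - 2 * s) = ρ ^ (2 - 2 * s) := by
        have : (2 - 2 * s) = 1 + (1 - 2 * s) := by ring
        rw [this, rp _ _ _ h0, Real.rpow_one]
      have h7 : ρ * δ ≤ ρ ^ (2 - 2 * s) * δ ^ (2 * s) := by
        calc ρ * δ = ρ * (δ ^ (1 - 2 * s) * δ ^ (2 * s)) := by rw [← h4]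
          _ ≤ ρ * (ρ ^ (1 - 2 * s) * δ ^ (2 * s)) := by gcongr
          _ = _ := by rw [← mul_assoc, h6]
      have h8 : 3200 * ρ * δ ^ 3 = 3200 * (ρ * δ) * δ ^ 2 := by ring
      rw [h8, hδ3]
      have h9 : 0 ≤ ρ ^ (2 - 2 * s) * δ ^ (2 * s) := by positivity
      have h10 : (ρ * δ) * δ ^ 2 ≤ (ρ ^ (2 - 2 * s) * δ ^ (2 * s)) * δ ^ 2 :=
        mul_le_mul_of_nonneg_right h7 (sq_nonneg _)
      have h11 : 0 ≤ (ρ ^ (2 - 2 * s) * δ ^ (2 * s)) * δ ^ 2 := by positivity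
      nlinarith
    · push Not at hc
      refine (bes1 hSG hXF h0 hδ).trans (ENNReal.ofReal_le_ofReal ?_)
      have h5 : ρ ^ (2 * s) ≤ δ ^ (2 * s) := Real.rpow_le_rpow h0.le hc.le (by linarith)
      have h6 : ρ ^ 2 ≤ ρ ^ (2 - 2 * s) * δ ^ (2 * s) := by
        rw [← hρ3]
        exact mul_le_mul_of_nonneg_left h5 hρp.le
      rw [hδ3]
      have h10 : ρ ^ 2 * δ ^ 2 ≤ (ρ ^ (2 - 2 * s) * δ ^ (2 * s)) * δ ^ 2 :=
        mul_le_mul_of_nonneg_right h6 (sq_nonneg _)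
      have h11 : 0 ≤ (ρ ^ (2 - 2 * s) * δ ^ (2 * s)) * δ ^ 2 := by positivity
      nlinarith

/-- the phase is small -/
lemma phase {ρ : ℝ} (h0 : 0 < ρ) {x : S2} (hx : ‖(x : E3) - so‖ ≤ ρ) {ξ : E3}
    (hξ : ξ ∈ box (1 / (50 * ρ)) (1 / (50 * ρ)) (1 / (50 * ρ ^ 2))) :
    |2 * Real.pi * ⟪(x : E3) - so, ξ⟫| ≤ 1 := by
  obtain ⟨h1, h2, h3⟩ := hξ
  have hin : ⟪(x : E3) - so, ξ⟫ = (x : E3) 0 * ξ 0 + (x : E3) 1 * ξ 1 + ((x : E3) 2 + 1) * ξ 2 := by
    rw [PiLp.inner_apply, Fin.sum_univ_three]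
    have e0 : ((x : E3) - so) 0 = (x : E3) 0 := by
      change (x : E3) 0 - 0 = _
      ring
    have e1 : ((x : E3) - so) 1 = (x : E3) 1 := by
      change (x : E3) 1 - 0 = _
      ring
    have e2 : ((x : E3) - so) 2 = (x : E3) 2 + 1 := by
      change (x : E3) 2 - -1 = _
      ring
    rw [e0, e1, e2]
    simp only [RCLike.inner_apply, conj_trivial]
    ring
  have hs := so_sub (x : E3)
  have hsq : ‖(x : E3) - so‖ ^ 2 ≤ ρ ^ 2 := pow_le_pow_left₀ (norm_nonneg _) hx 2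
  have h4 : |(x : E3) 0| ≤ ρ := by
    apply abs_le_of_sq_le_sq _ h0.le
    nlinarith [sq_nonneg ((x : E3) 1), sq_nonneg ((x : E3) 2 + 1)]
  have h5 : |(x : E3) 1| ≤ ρ := by
    apply abs_le_of_sq_le_sq _ h0.le
    nlinarith [sq_nonneg ((x : E3) 0), sq_nonneg ((x : E3) 2 + 1)]
  have h6 : |(x : E3) 2 + 1| ≤ ρ ^ 2 / 2 := by
    rw [height x, abs_of_nonneg (by positivity)]
    linarith
  have h7 : |(x : E3) 0 * ξ 0| ≤ 1 / 50 := by
    rw [abs_mul]
    calc |(x : E3) 0| * |ξ 0| ≤ ρ * (1 / (50 * ρ)) :=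
          mul_le_mul h4 h1 (abs_nonneg _) h0.le
      _ = 1 / 50 := by field_simp
  have h8 : |(x : E3) 1 * ξ 1| ≤ 1 / 50 := by
    rw [abs_mul]
    calc |(x : E3) 1| * |ξ 1| ≤ ρ * (1 / (50 * ρ)) :=
          mul_le_mul h5 h2 (abs_nonneg _) h0.le
      _ = 1 / 50 := by field_simp
  have h9 : |((x : E3) 2 + 1) * ξ 2| ≤ 1 / 100 := by
    rw [abs_mul]
    calc |(x : E3) 2 + 1| * |ξ 2| ≤ (ρ ^ 2 / 2) * (1 / (50 * ρ ^ 2)) :=
          mul_le_mul h6 h3 (abs_nonneg _) (by positivity)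
      _ = 1 / 100 := by field_simp; norm_num
  have h10 : |⟪(x : E3) - so, ξ⟫| ≤ 1 / 20 := by
    rw [hin]
    calc |(x : E3) 0 * ξ 0 + (x : E3) 1 * ξ 1 + ((x : E3) 2 + 1) * ξ 2|
        ≤ |(x : E3) 0 * ξ 0| + |(x : E3) 1 * ξ 1| + |((x : E3) 2 + 1) * ξ 2| := abs_add_three _ _ _
      _ ≤ 1 / 50 + 1 / 50 + 1 / 100 := by linarith
      _ = 1 / 20 := by norm_num
  rw [abs_mul, abs_of_pos (by positivity : (0 : ℝ) < 2 * Real.pi)]
  have h11 := Real.pi_le_four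
  have h12 := Real.pi_pos
  nlinarith [abs_nonneg ⟪(x : E3) - so, ξ⟫]

/-- lower bound for the Fourier transform -/
lemma ft_ge (hSG : S_SG) (hXF : S_XF) {ρ : ℝ} (h0 : 0 < ρ) (h1 : ρ ≤ 1 / 10) {ξ : E3}
    (hξ : ξ ∈ box (1 / (50 * ρ)) (1 / (50 * ρ)) (1 / (50 * ρ ^ 2))) :
    ρ ^ 2 / 2 ≤ ‖ft (gc ρ) ξ‖ := by
  set G : S2 → ℂ := fun x => cexp (((-(2 * Real.pi * ⟪(x : E3) - so, ξ⟫) : ℝ) : ℂ) * I) * gc ρ x
    with hG
  have hcont : Continuous fun x : S2 =>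
      cexp (((-(2 * Real.pi * ⟪(x : E3) - so, ξ⟫) : ℝ) : ℂ) * I) := by fun_prop
  have hGm : Measurable G := hcont.measurable.mul (gc_meas ρ)
  have hgn : ∀ x, ‖gc ρ x‖ ≤ 1 := by
    intro x
    unfold gc
    by_cases h : x ∈ {x : S2 | (x : E3) ∈ capE ρ}
    · rw [indicator_of_mem h]; simp
    · rw [indicator_of_notMem h]; simp
  have hGn : ∀ x, ‖G x‖ ≤ 1 := by
    intro x
    rw [hG]
    simp only
    rw [norm_mul, Complex.norm_exp_ofReal_mul_I, one_mul]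
    exact hgn x
  have hGi : Integrable G sig :=
    Integrable.of_bound hGm.aestronglyMeasurable 1 (ae_of_all _ hGn)
  -- the modulus
  have hft : cexp (((2 * Real.pi * ⟪so, ξ⟫ : ℝ) : ℂ) * I) * ft (gc ρ) ξ = ∫ x, G x ∂sig := by
    unfold ft
    rw [← integral_const_mul]
    refine integral_congr_ae (ae_of_all _ fun x => ?_)
    rw [hG]
    simp only
    rw [← mul_assoc, ← Complex.exp_add]
    congr 2
    rw [inner_sub_left]
    push_cast
    ring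
  have hnorm : ‖ft (gc ρ) ξ‖ = ‖∫ x, G x ∂sig‖ := by
    rw [← hft, norm_mul, Complex.norm_exp_ofReal_mul_I, one_mul]
  rw [hnorm]
  refine le_trans ?_ (Complex.re_le_norm _)
  have hre : (∫ x, G x ∂sig).re = ∫ x, (G x).re ∂sig := (integral_re hGi).symm
  rw [hre]
  have hle : ∫ x, {x : S2 | (x : E3) ∈ capE ρ}.indicator (fun _ => (1 / 2 : ℝ)) x ∂sig ≤
      ∫ x, (G x).re ∂sig := by
    apply integral_mono
    · exact (integrable_const _).indicator (cap_meas ρ)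
    · exact hGi.re
    · intro x
      by_cases h : x ∈ {x : S2 | (x : E3) ∈ capE ρ}
      · have h2 : G x = cexp (((-(2 * Real.pi * ⟪(x : E3) - so, ξ⟫) : ℝ) : ℂ) * I) := by
          rw [hG]
          simp only
          unfold gc
          rw [indicator_of_mem h, mul_one]
        simp only
        rw [indicator_of_mem h, h2, Complex.exp_ofReal_mul_I_re]
        have h3 := phase h0 h hξ
        have h4 := Real.one_sub_sq_div_two_le_cos (x := -(2 * Real.pi * ⟪(x : E3) - so, ξ⟫))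
        have h5 : (-(2 * Real.pi * ⟪(x : E3) - so, ξ⟫)) ^ 2 ≤ 1 := by
          rw [neg_sq, ← sq_abs]
          nlinarith [abs_nonneg (2 * Real.pi * ⟪(x : E3) - so, ξ⟫)]
        linarith
      · have h2 : G x = 0 := by
          rw [hG]
          simp only
          unfold gc
          rw [indicator_of_notMem h, mul_zero]
        simp only
        rw [indicator_of_notMem h, h2, Complex.zero_re]
  refine le_trans ?_ hle
  rw [integral_indicator (cap_meas ρ), setIntegral_const, smul_eq_mul]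
  have h6 := cap_ge hSG hXF h0 (by linarith : ρ ≤ 2 / 5)
  have h7 : ρ ^ 2 ≤ sig.real {x : S2 | (x : E3) ∈ capE ρ} := by
    have h8 := ENNReal.toReal_mono (measure_ne_top _ _) h6
    rwa [ENNReal.toReal_ofReal (by positivity)] at h8
  linarith

/-- **optimality of the regularity** -/
theorem kn : S_SG → S_XF → S_KN := by
  intro hSG hXF q s hq hs hsq C
  have hq0 : 0 < q := by linarith
  have h4q : 4 / q < 4 / 3 := by
    rw [div_lt_div_iff₀ hq0 (by norm_num)]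
    linarith
  have hs1 : s < 1 / 2 := by linarith
  set c₁ : ℝ := (1 / 15625 : ℝ) ^ (1 / q) with hc₁
  have hc₁0 : 0 < c₁ := Real.rpow_pos_of_pos (by norm_num) _
  obtain ⟨ρ, h0, h1, h2⟩ := exists_rho (4 / q - 1 - s) (600 * C) c₁ (by linarith) hc₁0
  refine ⟨gc ρ, Real.toNNReal (300 * ρ ^ (1 - s)), gc_bes hSG hXF h0 h1 hs hs1, ?_⟩
  set Bx : Set E3 := box (1 / (50 * ρ)) (1 / (50 * ρ)) (1 / (50 * ρ ^ 2)) with hBx
  have hlow : eLpNorm (Bx.indicator fun _ => (ρ ^ 2 / 2 : ℝ)) (ENNReal.ofReal q) volume ≤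
      eLpNorm (ft (gc ρ)) (ENNReal.ofReal q) volume := by
    apply eLpNorm_mono
    intro ξ
    by_cases h : ξ ∈ Bx
    · rw [indicator_of_mem h, Real.norm_eq_abs, abs_of_nonneg (by positivity)]
      exact ft_ge hSG hXF h0 h1 h
    · rw [indicator_of_notMem h, norm_zero]
      exact norm_nonneg _
  refine lt_of_lt_of_le ?_ hlow
  have hqne : ENNReal.ofReal q ≠ 0 := by
    rw [Ne, ENNReal.ofReal_eq_zero]
    linarith
  rw [eLpNorm_indicator_const (box_meas _ _ _) hqne ENNReal.ofReal_ne_top,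
    vol_box _ _ _ (by positivity) (by positivity) (by positivity), ENNReal.toReal_ofReal hq0.le]
  have hv : 8 * (1 / (50 * ρ)) * (1 / (50 * ρ)) * (1 / (50 * ρ ^ 2)) =
      (1 / 15625) * ρ ^ (-4 : ℝ) := by
    have : ρ ^ (-4 : ℝ) = (ρ ^ 4)⁻¹ := by
      rw [Real.rpow_neg h0.le]
      congr 1
      exact_mod_cast Real.rpow_natCast ρ 4
    rw [this]
    field_simp
    norm_num
  rw [hv, ENNReal.ofReal_rpow_of_nonneg (by positivity) (by positivity)]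
  have he : ‖(ρ ^ 2 / 2 : ℝ)‖ₑ = ENNReal.ofReal (ρ ^ 2 / 2) :=
    Real.enorm_of_nonneg (by positivity)
  rw [he, ← ENNReal.ofReal_mul (by positivity)]
  have hC : (C : ℝ≥0∞) = ENNReal.ofReal (C : ℝ) := (ENNReal.ofReal_coe_nnreal).symm
  rw [show ((Real.toNNReal (300 * ρ ^ (1 - s)) : ℝ≥0) : ℝ≥0∞) =
      ENNReal.ofReal (300 * ρ ^ (1 - s)) from rfl, hC, ← ENNReal.ofReal_mul (NNReal.coe_nonneg C)]
  have hkey : (C : ℝ) * (300 * ρ ^ (1 - s)) <
      ρ ^ 2 / 2 * ((1 / 15625) * ρ ^ (-4 : ℝ)) ^ (1 / q) := by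
    rw [Real.mul_rpow (by norm_num) (by positivity), ← hc₁, ← Real.rpow_mul h0.le]
    have h3 : ρ ^ 2 / 2 * (c₁ * ρ ^ (-4 * (1 / q))) = c₁ * ρ ^ (2 - 4 / q) / 2 := by
      have h4 : ρ ^ (2 - 4 / q) = ρ ^ 2 * ρ ^ (-4 * (1 / q)) := by
        have : 2 - 4 / q = 2 + -4 * (1 / q) := by ring
        rw [this, rp _ _ _ h0]
        congr 1
        exact_mod_cast Real.rpow_natCast ρ 2
      rw [h4]
      ring
    have h5 : ρ ^ (1 - s) = ρ ^ (4 / q - 1 - s) * ρ ^ (2 - 4 / q) := by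
      rw [← rp _ _ _ h0]
      congr 1
      ring
    rw [h3, h5]
    have h6 : 0 < ρ ^ (2 - 4 / q) := Real.rpow_pos_of_pos h0 _
    have h7 := mul_lt_mul_of_pos_right h2 h6
    linarith
  exact (ENNReal.ofReal_lt_ofReal_iff_of_nonneg (by positivity)).2 hkey

end Pool.Agent.Y25.SS
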